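import Mathlib
import Pool.Agent.T2H30.DN.Defs

/-! The conjugates of a Hecke character of weight two on `GL_2` over a number field. -/

set_option autoImplicit false

namespace Pool.Agent.T2H30.CF

open NumberField IsDedekindDomain Pool.Agent.TH861.GL3
open Pool.Agent.T2H30.DN (EulerProduct Unitary)

variable {K E : Type} [Field K] [NumberField K] [Field E] [NumberField E]
  {S : Finset (HeightOneSpectrum (𝓞 K))}

/-- For the Satake parameters `a = (a_0, a_1)` of a unitary component `π_v` with central character `ω_v`: the trace of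
the `k`-th power of `diag (a_0, a_1)` in the representation `Sym² ⊗ det⁻¹` (`b = false`), resp. `Sym⁴ ⊗ det⁻²`
(`b = true`). It is `y - 1`, resp. `y² - 3 y + 1`, with `y = |a_0^k + a_1^k|²`. -/
noncomputable def tr (b : Bool) (a : Fin 2 → ℂ) (k : ℕ) : ℝ :=
  if b then (‖a 0 ^ k + a 1 ^ k‖ ^ 2) ^ 2 - 3 * ‖a 0 ^ k + a 1 ^ k‖ ^ 2 + 1 else ‖a 0 ^ k + a 1 ^ k‖ ^ 2 - 1

/-- The subfield of the Hecke field `E` which is generated by the numbers `θ(T_v)² / θ(S_v)`, `v ∉ S`; it consists of the
elements fixed by the inner twists. -/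
def core (T D : PL S → E) : Subfield E := Subfield.closure (Set.range fun v => T v ^ 2 / D v)

open scoped Classical in
/-- Properties of a cuspidal character `θ` of weight two of the Hecke algebra of `GL_2` over the number field `K` which
is not dihedral: `T v = θ(T_v)` and `D v = θ(S_v)` for the primes `v ∉ S` (`S` contains the primes dividing the level),
with values in the number field `E`; for every embedding `σ` of `E` the character `σ ∘ θ` belongs to a unitary cuspidal
automorphic representation `π_σ` with Satake parameters `α σ v`, the roots of the Hecke polynomial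
`X² - σ(T v) X + σ(D v) N v` being `√(N v) α σ v i`. The representations `A²_σ = Sym² π_σ ⊗ ω_σ⁻¹` and
`A⁴_σ = Sym⁴ π_σ ⊗ ω_σ⁻²` are cuspidal, and `A²_σ ≅ A²_τ` if and only if `A⁴_σ ≅ A⁴_τ` if and only if `σ` and `τ` agree
on the field `core T D`. -/
structure WeightTwo (T D : PL S → E) (α : (E →+* ℂ) → PL S → Fin 2 → ℂ) : Prop where
  /-- the Satake parameters -/
  trace : ∀ σ v, σ (T v) = ((Real.sqrt (qq v.1 : ℝ) : ℝ) : ℂ) * (α σ v 0 + α σ v 1)
  det : ∀ σ v, σ (D v) = α σ v 0 * α σ v 1
  /-- the local components are unitary -/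
  unitary : ∀ σ v, Unitary (α σ v)
  /-- the `L`-functions of the `A²_σ` and the `A⁴_σ` have no pole -/
  lift : ∀ σ b, EulerProduct (fun x : PL S × ℕ => tr b (α σ x.1) (x.2 + 1)) 0
  /-- the Rankin-Selberg `L`-functions of the pairs of the `A²_σ`, `A⁴_σ`: a simple pole for isomorphic ones -/
  pair : ∀ σ τ b b', EulerProduct (fun x : PL S × ℕ => tr b (α σ x.1) (x.2 + 1) * tr b' (α τ x.1) (x.2 + 1))
    (if b = b' ∧ ∀ z ∈ core T D, σ z = τ z then 1 else 0)

end Pool.Agent.T2H30.CF
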