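import Mathlib
import Pool.Agent.T2H30.CF.Defs
import Pool.Agent.T2H30.DN.Dens
import Pool.Agent.T2H30.DN.Fin4
import Pool.Agent.T2H30.IN.Main

/-! The conjugates of a Hecke character of weight two: the law of large numbers. -/

set_option autoImplicit false

open Set Filter Topology NumberField IsDedekindDomain
open Pool.Agent.TH861.GL3
open Pool.Agent.T2H30.DN

namespace Pool.Agent.T2H30.CF

section count

variable {E : Type} [Field E] [NumberField E]

open scoped Classical in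
/-- an embedding of a subfield has `[E : F]` extensions -/
theorem card_ext (F : Subfield E) (σ : E →+* ℂ) :
    (Finset.univ.filter fun τ : E →+* ℂ => ∀ z ∈ F, σ z = τ z).card * Module.finrank ℚ F = Module.finrank ℚ E := by
  have hfin : Module.Finite F E := Module.Finite.of_restrictScalars_finite ℚ F E
  have h2 : (Finset.univ.filter fun τ : E →+* ℂ => ∀ z ∈ F, σ z = τ z).card = Module.finrank F E := by
    letI : Algebra F ℂ := (σ.comp F.subtype).toAlgebra
    rw [← AlgHom.card F E ℂ, ← Fintype.card_subtype]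
    refine Fintype.card_congr ⟨fun τ => ⟨τ.1, fun z => (τ.2 z.1 z.2).symm⟩, fun τ => ⟨τ.toRingHom, fun z hz => ?_⟩,
      fun τ => rfl, fun τ => rfl⟩
    exact (τ.commutes ⟨z, hz⟩).symm
  rw [h2, mul_comm]
  exact Module.finrank_mul_finrank ℚ F E

open scoped Classical in
theorem card_pairs (F : Subfield E) :
    (∑ σ : E →+* ℂ, ∑ τ : E →+* ℂ, if ∀ z ∈ F, σ z = τ z then (1 : ℝ) else 0) =
      (Module.finrank ℚ E : ℝ) ^ 2 / Module.finrank ℚ F := by
  have hg : (0 : ℝ) < Module.finrank ℚ F := by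
    have hfin : Module.Finite ℚ F := inferInstance
    exact_mod_cast Module.finrank_pos
  have h1 : ∀ σ : E →+* ℂ, (∑ τ : E →+* ℂ, if ∀ z ∈ F, σ z = τ z then (1 : ℝ) else 0) =
      (Module.finrank ℚ E : ℝ) / Module.finrank ℚ F := by
    intro σ
    rw [Finset.sum_ite, Finset.sum_const_zero, add_zero, Finset.sum_const, nsmul_eq_mul, mul_one, eq_div_iff hg.ne']
    exact_mod_cast card_ext F σ
  simp_rw [h1]
  rw [Finset.sum_const, Finset.card_univ, NumberField.Embeddings.card E ℂ, nsmul_eq_mul]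
  ring

end count

section
variable {K E : Type} [Field K] [NumberField K] [Field E] [NumberField E]
  {S : Finset (HeightOneSpectrum (𝓞 K))} {T D : PL S → E} {α : (E →+* ℂ) → PL S → Fin 2 → ℂ}

theorem cont_zero : Cont (fun _ : PL S × ℕ => (0 : ℝ)) 0 := by
  have h := (cont_one (Pool.Agent.H484R2.continuation K) S).smul 0
  simpa using h

theorem cont_sum {ι : Type} (s : Finset ι) {c : ι → PL S × ℕ → ℝ} {A : ι → ℝ} (h : ∀ i ∈ s, Cont (c i) (A i)) :
    Cont (fun x => ∑ i ∈ s, c i x) (∑ i ∈ s, A i) := by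
  classical
  induction s using Finset.induction_on with
  | empty => simpa using cont_zero (S := S)
  | insert a s ha ih =>
    simp only [Finset.sum_insert ha]
    exact (h a (Finset.mem_insert_self _ _)).add (ih fun i hi => h i (Finset.mem_insert_of_mem hi))

/-- `u = 3 - 2b` -/
noncomputable def ff (u : ℝ) (a : Fin 2 → ℂ) (k : ℕ) : ℝ := tr true a k + u * tr false a k

theorem ff_eq (b : ℝ) (a : Fin 2 → ℂ) (k : ℕ) :
    ff (3 - 2 * b) a k = (‖a 0 ^ k + a 1 ^ k‖ ^ 2 - b) ^ 2 - ((1 - b) ^ 2 + 1) := by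
  unfold ff tr
  simp only [if_true, if_false, Bool.false_eq_true]
  ring

open scoped Classical in
theorem cont_sq (h : WeightTwo T D α) (u l : ℝ) :
    Cont (fun x : PL S × ℕ => (∑ σ, ff u (α σ x.1) (x.2 + 1) + l) ^ 2)
      ((1 + u ^ 2) * ((Module.finrank ℚ E : ℝ) ^ 2 / Module.finrank ℚ (core T D)) + l ^ 2) := by
  have h1 : ∀ σ, Cont (fun x : PL S × ℕ => ff u (α σ x.1) (x.2 + 1)) 0 := by
    intro σ
    have := (h.lift σ true).cont.add ((h.lift σ false).cont.smul u)
    simpa [ff] using this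
  have h2 : ∀ σ τ, Cont (fun x : PL S × ℕ => ff u (α σ x.1) (x.2 + 1) * ff u (α τ x.1) (x.2 + 1))
      ((1 + u ^ 2) * (if ∀ z ∈ core T D, σ z = τ z then (1 : ℝ) else 0)) := by
    intro σ τ
    have h3 := (((h.pair σ τ true true).cont.add ((h.pair σ τ true false).cont.smul u)).add
      ((h.pair σ τ false true).cont.smul u)).add ((h.pair σ τ false false).cont.smul (u ^ 2))
    convert h3 using 1
    · funext x
      unfold ff
      ring
    · by_cases h4 : ∀ z ∈ core T D, σ z = τ z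
      · rw [if_pos h4, if_pos ⟨rfl, h4⟩, if_neg fun h => Bool.noConfusion h.1, if_neg fun h => Bool.noConfusion h.1,
          if_pos ⟨rfl, h4⟩]
        push_cast
        ring
      · rw [if_neg h4, if_neg fun h => h4 h.2, if_neg fun h => h4 h.2, if_neg fun h => h4 h.2, if_neg fun h => h4 h.2]
        push_cast
        ring
  have h5 := cont_sum Finset.univ fun σ (_ : σ ∈ Finset.univ) => cont_sum Finset.univ fun τ (_ : τ ∈ Finset.univ) => h2 σ τ
  have h6 := cont_sum Finset.univ fun σ (_ : σ ∈ Finset.univ) => h1 σ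
  have h7 := (h5.add (h6.smul (2 * l))).add ((cont_one (Pool.Agent.H484R2.continuation K) S).smul (l ^ 2))
  convert h7 using 1
  · funext x
    rw [add_sq, sq (∑ σ, ff u (α σ x.1) (x.2 + 1)), Finset.sum_mul_sum]
    ring
  · rw [← card_pairs (core T D)]
    simp only [Finset.sum_const_zero, mul_zero, add_zero, mul_one, ← Finset.mul_sum]

theorem main (h : WeightTwo T D α) {z c : ℝ} (hz : 0 < z) (hc : 1 < c * (1 + z ^ 2)) :
    UpperDensityLE (fun v : PL S => c * Module.finrank ℚ E ≤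
      (({σ : E →+* ℂ | (1 + z) * (qq v.1 : ℝ) ≤ ‖σ (T v)‖ ^ 2}.ncard : ℕ) : ℝ))
      (2 * z ^ 2 * (z ^ 2 + 2 * z + 2) / (2 * z ^ 2 * (z ^ 2 + 2 * z + 2) +
        Module.finrank ℚ (core T D) * ((1 + z ^ 2) * (c * (1 + z ^ 2) - 1)) ^ 2)) := by
  classical
  set n : ℝ := (Module.finrank ℚ E : ℝ) with hn
  set g : ℝ := (Module.finrank ℚ (core T D) : ℝ) with hg
  have hn0 : 0 < n := by
    have : 0 < Module.finrank ℚ E := Module.finrank_pos
    rw [hn]
    exact_mod_cast this
  have hg0 : 0 < g := by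
    have : 0 < Module.finrank ℚ (core T D) := Module.finrank_pos
    rw [hg]
    exact_mod_cast this
  set b : ℝ := 1 - 1 / z with hb
  set m : ℝ := (1 + z ^ 2) / z ^ 2 * (c * (1 + z ^ 2) - 1) with hm
  have hm0 : 0 < m := by
    have : 0 < c * (1 + z ^ 2) - 1 := by linarith
    positivity
  set V : ℝ := (1 + (3 - 2 * b) ^ 2) * (n ^ 2 / g) with hV
  have hV0 : 0 < V := by positivity
  set l : ℝ := V / (n * m) with hl
  have hl0 : 0 < l := by positivity
  have h1 := (cont_sq h (3 - 2 * b) l).tendsto fun x => by positivity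
  have h2 := upper_of_tendsto (fun x => by positivity) h1 (κ := (n * m + l) ^ 2) (by positivity)
    (P := fun v : PL S => c * n ≤ (({σ : E →+* ℂ | (1 + z) * (qq v.1 : ℝ) ≤ ‖σ (T v)‖ ^ 2}.ncard : ℕ) : ℝ)) ?_
  · convert h2 using 1
    rw [← hV, hl, hV, hm, hb]
    have e1 : c * (1 + z ^ 2) - 1 ≠ 0 := by linarith
    have e2 : (1 + z ^ 2 : ℝ) ≠ 0 := by positivity
    have e0 : 0 < c * (1 + z ^ 2) - 1 := by linarith
    set w : ℝ := c * (1 + z ^ 2) - 1 with hw
    have e3 : (3 - 2 * (1 - 1 / z) : ℝ) = (z + 2) / z := by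
      field_simp
      ring
    rw [e3]
    have e4 : (2 * z ^ 2 * (z ^ 2 + 2 * z + 2) + g * ((1 + z ^ 2) * w) ^ 2 : ℝ) ≠ 0 := by positivity
    have e5 : (1 + ((z + 2) / z) ^ 2 : ℝ) = 2 * (z ^ 2 + 2 * z + 2) / z ^ 2 := by
      field_simp
      ring
    rw [e5]
    have e6 : n * ((1 + z ^ 2) / z ^ 2 * w) + 2 * (z ^ 2 + 2 * z + 2) / z ^ 2 * (n ^ 2 / g) /
        (n * ((1 + z ^ 2) / z ^ 2 * w)) = n * (2 * z ^ 2 * (z ^ 2 + 2 * z + 2) + g * ((1 + z ^ 2) * w) ^ 2) /
          (z ^ 2 * g * ((1 + z ^ 2) * w)) := by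
      field_simp
      ring
    rw [e6]
    field_simp
    ring
  · intro v hv
    simp only [zero_add]
    have h3 : c * n * (z + 1 / z) ^ 2 ≤ ∑ σ, (‖α σ v 0 ^ 1 + α σ v 1 ^ 1‖ ^ 2 - b) ^ 2 := by
      have h4 : (({σ : E →+* ℂ | (1 + z) * (qq v.1 : ℝ) ≤ ‖σ (T v)‖ ^ 2}.ncard : ℕ) : ℝ) * (z + 1 / z) ^ 2 ≤
          ∑ σ, (‖α σ v 0 ^ 1 + α σ v 1 ^ 1‖ ^ 2 - b) ^ 2 := by
        rw [Set.ncard_eq_toFinset_card', ← nsmul_eq_mul, ← Finset.sum_const]
        refine (Finset.sum_le_sum fun σ hσ => ?_).trans (Finset.sum_le_sum_of_subset_of_nonneg (Finset.subset_univ _)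
          fun σ _ _ => by positivity)
        have h5 : (1 + z) * (qq v.1 : ℝ) ≤ ‖σ (T v)‖ ^ 2 := by simpa using hσ
        rw [h.trace, norm_mul, Complex.norm_real, Real.norm_of_nonneg (Real.sqrt_nonneg _), mul_pow,
          Real.sq_sqrt (Nat.cast_nonneg _), mul_comm] at h5
        have h6 : (0 : ℝ) < qq v.1 := by
          have := two_le_qq v.1
          positivity
        have h7 : 1 + z ≤ ‖α σ v 0 + α σ v 1‖ ^ 2 := le_of_mul_le_mul_left h5 h6
        rw [pow_one, pow_one]
        have h8 : z + 1 / z ≤ ‖α σ v 0 + α σ v 1‖ ^ 2 - b := by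
          rw [hb]
          linarith
        exact pow_le_pow_left₀ (by positivity) h8 2
      refine le_trans ?_ h4
      exact mul_le_mul_of_nonneg_right hv (by positivity)
    have h9 : n * m ≤ ∑ σ, ff (3 - 2 * b) (α σ v) 1 := by
      simp_rw [ff_eq]
      rw [Finset.sum_sub_distrib, Finset.sum_const, Finset.card_univ, NumberField.Embeddings.card E ℂ, nsmul_eq_mul,
        ← hn]
      have e3 : n * m = c * n * (z + 1 / z) ^ 2 - n * ((1 - b) ^ 2 + 1) := by
        rw [hm, hb]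
        field_simp
        ring
      rw [e3]
      linarith
    exact pow_le_pow_left₀ (by positivity) (by linarith) 2

end

end Pool.Agent.T2H30.CF
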