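import Mathlib
import Pool.Agent.T2H30.CF.Main

/-! The norms of the eigenvalues of a Hecke character of weight two. -/

set_option autoImplicit false

open Set Filter Topology NumberField IsDedekindDomain
open Pool.Agent.TH861.GL3
open Pool.Agent.T2H30.DN

namespace Pool.Agent.T2H30.CF

variable {K E : Type} [Field K] [NumberField K] [Field E] [NumberField E]
  {S : Finset (HeightOneSpectrum (𝓞 K))} {T D : PL S → E} {α : (E →+* ℂ) → PL S → Fin 2 → ℂ}

/-- `a A² + b A⁴` -/
noncomputable def f2 (a b : ℝ) (z : Fin 2 → ℂ) (k : ℕ) : ℝ := a * tr false z k + b * tr true z k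

open scoped Classical in
theorem cont_sq2 (h : WeightTwo T D α) (a b l : ℝ) :
    Cont (fun x : PL S × ℕ => (∑ σ, f2 a b (α σ x.1) (x.2 + 1) + l) ^ 2)
      ((a ^ 2 + b ^ 2) * ((Module.finrank ℚ E : ℝ) ^ 2 / Module.finrank ℚ (core T D)) + l ^ 2) := by
  have h1 : ∀ σ, Cont (fun x : PL S × ℕ => f2 a b (α σ x.1) (x.2 + 1)) 0 := by
    intro σ
    have := ((h.lift σ false).cont.smul a).add ((h.lift σ true).cont.smul b)
    simpa [f2] using this
  have h2 : ∀ σ τ, Cont (fun x : PL S × ℕ => f2 a b (α σ x.1) (x.2 + 1) * f2 a b (α τ x.1) (x.2 + 1))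
      ((a ^ 2 + b ^ 2) * (if ∀ z ∈ core T D, σ z = τ z then (1 : ℝ) else 0)) := by
    intro σ τ
    have h3 := ((((h.pair σ τ false false).cont.smul (a ^ 2)).add ((h.pair σ τ true false).cont.smul (a * b))).add
      ((h.pair σ τ false true).cont.smul (a * b))).add ((h.pair σ τ true true).cont.smul (b ^ 2))
    convert h3 using 1
    · funext x
      unfold f2
      ring
    · by_cases h4 : ∀ z ∈ core T D, σ z = τ z
      · rw [if_pos h4, if_pos ⟨rfl, h4⟩, if_neg fun h => Bool.noConfusion h.1, if_neg fun h => Bool.noConfusion h.1,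
          if_pos ⟨rfl, h4⟩]
        push_cast
        ring
      · rw [if_neg h4, if_neg fun h => h4 h.2, if_neg fun h => h4 h.2, if_neg fun h => h4 h.2, if_neg fun h => h4 h.2]
        push_cast
        ring
  have h5 := cont_sum Finset.univ fun σ (_ : σ ∈ Finset.univ) => cont_sum Finset.univ fun τ (_ : τ ∈ Finset.univ) => h2 σ τ
  have h6 := cont_sum Finset.univ fun σ (_ : σ ∈ Finset.univ) => h1 σ
  have h7 := (h5.add (h6.smul (2 * l))).add ((cont_one (Pool.Agent.H484R2.continuation K) S).smul (l ^ 2))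
  convert h7 using 1
  · funext x
    rw [add_sq, sq (∑ σ, f2 a b (α σ x.1) (x.2 + 1)), Finset.sum_mul_sum]
    ring
  · rw [← card_pairs (core T D)]
    simp only [Finset.sum_const_zero, mul_zero, add_zero, mul_one, ← Finset.mul_sum]

/-- Cantelli's inequality for the means -/
theorem mean_bound (h : WeightTwo T D α) {a b : ℝ} (hab : 0 < a ^ 2 + b ^ 2) :
    UpperDensityLE (fun v : PL S => (a ^ 2 + b ^ 2) * Module.finrank ℚ E ≤ ∑ σ, f2 a b (α σ v) 1)
      (1 / (1 + Module.finrank ℚ (core T D) * (a ^ 2 + b ^ 2))) := by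
  classical
  set n : ℝ := (Module.finrank ℚ E : ℝ) with hn
  set g : ℝ := (Module.finrank ℚ (core T D) : ℝ) with hg
  have hn0 : 0 < n := by
    have : 0 < Module.finrank ℚ E := Module.finrank_pos
    rw [hn]
    exact_mod_cast this
  have hg0 : 0 < g := by
    have : 0 < Module.finrank ℚ (core T D) := Module.finrank_pos
    rw [hg]
    exact_mod_cast this
  set m : ℝ := a ^ 2 + b ^ 2 with hm
  set l : ℝ := n / g with hl
  have hl0 : 0 < l := by positivity
  have h1 := (cont_sq2 h a b l).tendsto fun x => by positivity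
  rw [← hm, ← hn, ← hg] at h1
  have h2 := upper_of_tendsto (fun x => by positivity) h1 (κ := (m * n + l) ^ 2) (by positivity)
    (P := fun v : PL S => m * n ≤ ∑ σ, f2 a b (α σ v) 1) ?_
  · convert h2 using 1
    rw [hl]
    field_simp
    ring
  · intro v hv
    simp only [zero_add]
    exact pow_le_pow_left₀ (by positivity) (by linarith) 2

/-- `|σ (T v)|² / N v` -/
noncomputable def xx (α : (E →+* ℂ) → PL S → Fin 2 → ℂ) (σ : E →+* ℂ) (v : PL S) : ℝ := ‖α σ v 0 + α σ v 1‖ ^ 2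

theorem xx_nonneg (σ : E →+* ℂ) (v : PL S) : 0 ≤ xx α σ v := by
  unfold xx
  positivity

theorem norm_T (h : WeightTwo T D α) (σ : E →+* ℂ) (v : PL S) : ‖σ (T v)‖ ^ 2 = xx α σ v * (qq v.1 : ℝ) := by
  rw [h.trace, norm_mul, Complex.norm_real, Real.norm_of_nonneg (Real.sqrt_nonneg _), mul_pow,
    Real.sq_sqrt (Nat.cast_nonneg _), mul_comm]
  rfl

theorem tr_false (σ : E →+* ℂ) (v : PL S) : tr false (α σ v) 1 = xx α σ v - 1 := by
  unfold tr xx
  simp

theorem tr_true (σ : E →+* ℂ) (v : PL S) : tr true (α σ v) 1 = xx α σ v ^ 2 - 3 * xx α σ v + 1 := by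
  unfold tr xx
  simp

theorem card_emb : (Finset.univ : Finset (E →+* ℂ)).card = Module.finrank ℚ E := by
  rw [Finset.card_univ, NumberField.Embeddings.card E ℂ]

/-- the mean of `x_σ` is at least `X`: first bound -/
theorem mean_one (h : WeightTwo T D α) {X : ℝ} (hX : 1 < X) :
    UpperDensityLE (fun v : PL S => X * Module.finrank ℚ E ≤ ∑ σ, xx α σ v)
      (1 / (1 + Module.finrank ℚ (core T D) * (X - 1) ^ 2)) := by
  have h1 := mean_bound h (a := X - 1) (b := 0) (by
    have : 0 < X - 1 := by linarith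
    positivity)
  have e : (X - 1) ^ 2 + 0 ^ 2 = (X - 1) ^ 2 := by ring
  rw [e] at h1
  refine h1.mono fun v hv => ?_
  unfold f2
  simp only [zero_mul, add_zero, tr_false]
  rw [← Finset.mul_sum, Finset.sum_sub_distrib, Finset.sum_const, card_emb, nsmul_eq_mul, mul_one, sq]
  have h2 : 0 ≤ X - 1 := by linarith
  have h3 : (X - 1) * (Module.finrank ℚ E : ℝ) ≤ ∑ σ, xx α σ v - Module.finrank ℚ E := by linarith
  nlinarith

/-- the mean of `x_σ` is at least `X`: second bound -/
theorem mean_two (h : WeightTwo T D α) {X : ℝ} (hX : 3 ≤ X) :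
    UpperDensityLE (fun v : PL S => X * Module.finrank ℚ E ≤ ∑ σ, xx α σ v)
      (1 / (1 + Module.finrank ℚ (core T D) * ((X - 1) ^ 2 + (X ^ 2 - 3 * X + 1) ^ 2))) := by
  have h1 := mean_bound h (a := X - 1) (b := X ^ 2 - 3 * X + 1) (by
    have : 0 < X - 1 := by linarith
    positivity)
  refine h1.mono fun v hv => ?_
  unfold f2
  simp only [tr_false, tr_true]
  have hn : (0 : ℝ) < Module.finrank ℚ E := by
    have : 0 < Module.finrank ℚ E := Module.finrank_pos
    exact_mod_cast this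
  set n : ℝ := (Module.finrank ℚ E : ℝ) with hnn
  set s : ℝ := ∑ σ, xx α σ v with hs
  have h2 : s ^ 2 ≤ n * ∑ σ, xx α σ v ^ 2 := by
    have := sq_sum_le_card_mul_sum_sq (s := (Finset.univ : Finset (E →+* ℂ))) (f := fun σ => xx α σ v)
    rw [card_emb] at this
    exact this
  have e1 : ∑ σ, ((X - 1) * (xx α σ v - 1) + (X ^ 2 - 3 * X + 1) * (xx α σ v ^ 2 - 3 * xx α σ v + 1)) =
      (X - 1) * (s - n) + (X ^ 2 - 3 * X + 1) * (∑ σ, xx α σ v ^ 2 - 3 * s + n) := by
    rw [Finset.sum_add_distrib, ← Finset.mul_sum, ← Finset.mul_sum, Finset.sum_add_distrib, Finset.sum_sub_distrib,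
      Finset.sum_sub_distrib, ← Finset.mul_sum, Finset.sum_const, card_emb, nsmul_eq_mul, mul_one]
  rw [e1]
  have h3 : 0 ≤ X ^ 2 - 3 * X + 1 := by nlinarith
  have h4 : X ^ 2 * n - 3 * (X * n) + n ≤ ∑ σ, xx α σ v ^ 2 - 3 * s + n := by
    have h5 : s ^ 2 / n ≤ ∑ σ, xx α σ v ^ 2 := by
      rw [div_le_iff₀ hn, mul_comm]
      exact h2
    have h6 : X ^ 2 * n - 3 * (X * n) ≤ s ^ 2 / n - 3 * s := by
      rw [le_sub_iff_add_le, le_div_iff₀ hn]
      nlinarith [mul_nonneg (sub_nonneg.2 hv) (sub_nonneg.2 hv), mul_nonneg (sub_nonneg.2 hv) hn.le,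
        mul_nonneg (mul_nonneg (sub_nonneg.2 hv) hn.le) (by linarith : (0 : ℝ) ≤ X - 3)]
    linarith
  have h7 : (X - 1) * (X * n - n) ≤ (X - 1) * (s - n) := mul_le_mul_of_nonneg_left (by linarith) (by linarith)
  have h8 := mul_le_mul_of_nonneg_left h4 h3
  nlinarith

end Pool.Agent.T2H30.CF
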