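import Mathlib
import Pool.Agent.T2H30.CF.Norm

/-! The norms of the eigenvalues of a Hecke character of weight two: Hasse-Weil bounds. -/

set_option autoImplicit false

open Set Filter Topology NumberField IsDedekindDomain
open Pool.Agent.TH861.GL3
open Pool.Agent.T2H30.DN

namespace Pool.Agent.T2H30.CF

section field

variable {E : Type} [Field E] [NumberField E]

theorem abs_norm_eq (x : E) : |((Algebra.norm ℚ x : ℚ) : ℝ)| = ∏ σ : E →+* ℂ, ‖σ x‖ := by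
  have h := Algebra.norm_eq_prod_embeddings ℚ ℂ x
  have h1 : |((Algebra.norm ℚ x : ℚ) : ℝ)| = ‖(algebraMap ℚ ℂ) (Algebra.norm ℚ x)‖ := by
    rw [eq_ratCast, ← Complex.ofReal_ratCast, Complex.norm_real, Real.norm_eq_abs]
  rw [h1, h, norm_prod]
  exact (Fintype.prod_equiv (RingHom.equivRatAlgHom E ℂ) (fun σ => ‖σ x‖) (fun φ => ‖φ x‖) fun _ => by
    simp [RingHom.equivRatAlgHom_apply]).symm

end field

section real

variable {ι : Type} [Fintype ι] [Nonempty ι]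

theorem prod_le_mean {z : ι → ℝ} (hz : ∀ i, 0 ≤ z i) {M : ℝ} (hM : ∑ i, z i ≤ M * Fintype.card ι) :
    ∏ i, z i ≤ M ^ Fintype.card ι := by
  have hn : (0 : ℝ) < Fintype.card ι := by exact_mod_cast Fintype.card_pos
  have h := Real.geom_mean_le_arith_mean Finset.univ (fun _ => (1 : ℝ)) z (fun _ _ => zero_le_one)
    (by simpa using hn) fun i _ => hz i
  simp only [Real.rpow_one, Finset.sum_const, Finset.card_univ, nsmul_eq_mul, mul_one, one_mul] at h
  have h1 : (∑ i, z i) / Fintype.card ι ≤ M := by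
    rw [div_le_iff₀ hn]
    exact hM
  have h2 := pow_le_pow_left₀ (Real.rpow_nonneg (Finset.prod_nonneg fun i _ => hz i) _) (h.trans h1) (Fintype.card ι)
  rwa [← Real.rpow_natCast, ← Real.rpow_mul (Finset.prod_nonneg fun i _ => hz i), inv_mul_cancel₀ hn.ne',
    Real.rpow_one] at h2

theorem sum_sqrt_le {x : ι → ℝ} (hx : ∀ i, 0 ≤ x i) {X : ℝ} (hX : 0 ≤ X) (h : ∑ i, x i ≤ X * Fintype.card ι) :
    ∑ i, Real.sqrt (x i) ≤ Real.sqrt X * Fintype.card ι := by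
  have hn : (0 : ℝ) < Fintype.card ι := by exact_mod_cast Fintype.card_pos
  have h1 := sq_sum_le_card_mul_sum_sq (s := (Finset.univ : Finset ι)) (f := fun i => Real.sqrt (x i))
  simp only [Real.sq_sqrt (hx _), Finset.card_univ] at h1
  refine le_of_sq_le_sq ?_ (by positivity)
  rw [mul_pow, Real.sq_sqrt hX]
  nlinarith

theorem exp_le_one_sub {z : ℝ} (h1 : z ≤ 1 / 2) (h0 : 0 ≤ z) : Real.exp (-(z + 2 * z ^ 2)) ≤ 1 - z := by
  have h2 : 0 < 1 - z := by linarith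
  rw [← Real.le_log_iff_exp_le h2]
  refine le_trans ?_ (Real.one_sub_inv_le_log_of_pos h2)
  have h3 : (1 - z)⁻¹ ≤ 1 + z + 2 * z ^ 2 := by
    rw [inv_le_iff_one_le_mul₀ h2]
    nlinarith [mul_nonneg (mul_nonneg h0 h0) (by linarith : (0 : ℝ) ≤ 1 - 2 * z)]
  linarith

/-- the lower bound -/
theorem prod_ge {x : ι → ℝ} (hx : ∀ i, 0 ≤ x i) {X Y N : ℝ} (hX : 0 ≤ X) (hN : 4 ≤ N)
    (h : ∑ i, x i ≤ X * Fintype.card ι) (h1 : 16 * X * Fintype.card ι ≤ N)
    (h2 : 6 + 4 * X ≤ (Y - Real.sqrt X) * Real.sqrt N) (h3 : Y * Real.sqrt N ≤ N) {F : ι → ℝ}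
    (hF : ∀ i, N - 1 - Real.sqrt N * Real.sqrt (x i) ≤ F i) : (N + 1 - Y * Real.sqrt N) ^ Fintype.card ι ≤ ∏ i, F i := by
  have hN0 : 0 < N := by linarith
  have hn : (0 : ℝ) < Fintype.card ι := by exact_mod_cast Fintype.card_pos
  set r : ℝ := Real.sqrt N with hr
  have hr0 : 0 < r := Real.sqrt_pos.2 hN0
  have hrr : r ^ 2 = N := Real.sq_sqrt hN0.le
  set z : ι → ℝ := fun i => Real.sqrt (x i) / r + 1 / N with hz
  have hz0 : ∀ i, 0 ≤ z i := fun i => by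
    simp only [hz]
    positivity
  have hz1 : ∀ i, z i ≤ 1 / 2 := by
    intro i
    have e1 : x i ≤ ∑ j, x j := Finset.single_le_sum (fun j _ => hx j) (Finset.mem_univ i)
    have e2 : x i ≤ (r / 4) ^ 2 := by
      rw [div_pow, hrr]
      linarith
    have e3 : Real.sqrt (x i) ≤ r / 4 := Real.sqrt_le_iff.2 ⟨by positivity, e2⟩
    have e4 : Real.sqrt (x i) / r ≤ 1 / 4 := by
      rw [div_le_iff₀ hr0]
      linarith
    have e5 : 1 / N ≤ 1 / 4 := one_div_le_one_div_of_le (by norm_num) hN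
    simp only [hz]
    linarith
  have hF1 : ∀ i, N * Real.exp (-(z i + 2 * z i ^ 2)) ≤ F i := by
    intro i
    refine le_trans ?_ (hF i)
    refine (mul_le_mul_of_nonneg_left (exp_le_one_sub (hz1 i) (hz0 i)) hN0.le).trans (le_of_eq ?_)
    simp only [hz]
    have e : N * (Real.sqrt (x i) / r) = r * Real.sqrt (x i) := by
      rw [← hrr]
      field_simp
    have e' : N * (1 / N) = 1 := by field_simp
    calc N * (1 - (Real.sqrt (x i) / r + 1 / N)) = N - N * (Real.sqrt (x i) / r) - N * (1 / N) := by ring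
      _ = N - 1 - r * Real.sqrt (x i) := by
        rw [e, e']
        ring
  have hS : ∑ i, (z i + 2 * z i ^ 2) ≤ Fintype.card ι * (Y / r - 1 / N) := by
    have s1 : ∑ i, z i = (∑ i, Real.sqrt (x i)) / r + Fintype.card ι * (1 / N) := by
      simp only [hz]
      rw [Finset.sum_add_distrib, Finset.sum_div, Finset.sum_const, Finset.card_univ, nsmul_eq_mul]
    have s2 : ∀ i, z i ^ 2 ≤ 2 * (x i / N) + 2 * (1 / N) ^ 2 := by
      intro i
      simp only [hz]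
      have e : (Real.sqrt (x i) / r) ^ 2 = x i / N := by rw [div_pow, Real.sq_sqrt (hx i), hrr]
      nlinarith [sq_nonneg (Real.sqrt (x i) / r - 1 / N)]
    have s3 : ∑ i, z i ^ 2 ≤ 2 * ((∑ i, x i) / N) + Fintype.card ι * (2 * (1 / N) ^ 2) := by
      refine (Finset.sum_le_sum fun i _ => s2 i).trans (le_of_eq ?_)
      rw [Finset.sum_add_distrib, ← Finset.mul_sum, Finset.sum_div, Finset.sum_const, Finset.card_univ, nsmul_eq_mul]
    have s4 : (∑ i, Real.sqrt (x i)) / r ≤ Fintype.card ι * (Real.sqrt X / r) := by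
      have := div_le_div_of_nonneg_right (sum_sqrt_le hx hX h) hr0.le
      calc (∑ i, Real.sqrt (x i)) / r ≤ Real.sqrt X * Fintype.card ι / r := this
        _ = _ := by ring
    have s5 : (∑ i, x i) / N ≤ Fintype.card ι * (X / N) := by
      have := div_le_div_of_nonneg_right h hN0.le
      calc (∑ i, x i) / N ≤ X * Fintype.card ι / N := this
        _ = _ := by ring
    rw [Finset.sum_add_distrib, ← Finset.mul_sum, s1]
    have s6 : Real.sqrt X / r + 1 / N + 4 * (X / N) + 4 * (1 / N) ^ 2 ≤ Y / r - 1 / N := by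
      have e1 : 4 * (1 / N) ^ 2 ≤ 1 / N := by
        have : 1 / N ≤ 1 / 4 := one_div_le_one_div_of_le (by norm_num) hN
        have : 0 < 1 / N := by positivity
        nlinarith
      have e2 : (6 + 4 * X) / N ≤ (Y - Real.sqrt X) / r := by
        rw [div_le_div_iff₀ hN0 hr0]
        calc (6 + 4 * X) * r ≤ ((Y - Real.sqrt X) * r) * r := mul_le_mul_of_nonneg_right h2 hr0.le
          _ = (Y - Real.sqrt X) * N := by rw [← hrr]; ring
      have e3 : (6 + 4 * X) / N = 6 * (1 / N) + 4 * (X / N) := by ring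
      have e4 : (Y - Real.sqrt X) / r = Y / r - Real.sqrt X / r := by ring
      rw [e3, e4] at e2
      have : 0 < 1 / N := by positivity
      linarith
    nlinarith
  have hw : 0 ≤ N + 1 - Y * r := by linarith
  have hw1 : N + 1 - Y * r ≤ N * Real.exp (-(Y / r - 1 / N)) := by
    have e := Real.add_one_le_exp (-(Y / r - 1 / N))
    refine le_trans (le_of_eq ?_) (mul_le_mul_of_nonneg_left e hN0.le)
    have e1 : N * (Y / r) = Y * r := by
      rw [← hrr]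
      field_simp
    have e' : N * (1 / N) = 1 := by field_simp
    calc N + 1 - Y * r = N + N * (1 / N) - N * (Y / r) := by rw [e1, e']
      _ = _ := by ring
  calc (N + 1 - Y * r) ^ Fintype.card ι ≤ (N * Real.exp (-(Y / r - 1 / N))) ^ Fintype.card ι :=
        pow_le_pow_left₀ hw hw1 _
    _ = N ^ Fintype.card ι * Real.exp (-(Fintype.card ι * (Y / r - 1 / N))) := by
        rw [mul_pow, ← Real.exp_nat_mul]
        congr 2
        ring
    _ ≤ N ^ Fintype.card ι * Real.exp (-∑ i, (z i + 2 * z i ^ 2)) := by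
        refine mul_le_mul_of_nonneg_left (Real.exp_le_exp.2 (neg_le_neg hS)) (by positivity)
    _ = ∏ i, (N * Real.exp (-(z i + 2 * z i ^ 2))) := by
        rw [Finset.prod_mul_distrib, Finset.prod_const, Finset.card_univ, ← Real.exp_sum, Finset.sum_neg_distrib]
    _ ≤ ∏ i, F i := Finset.prod_le_prod (fun i _ => by positivity) fun i _ => hF1 i

end real

section density

variable {K : Type} [Field K] [NumberField K] {S : Finset (HeightOneSpectrum (𝓞 K))}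

theorem upper_of_large {P Q : PL S → Prop} {δ N₀ : ℝ} (h : UpperDensityLE P δ)
    (hPQ : ∀ v, N₀ ≤ (qq v.1 : ℝ) → Q v → P v) : UpperDensityLE Q δ := by
  intro η hη ε hε
  obtain ⟨X₀, hX₀⟩ := h η hη ε hε
  refine ⟨max X₀ N₀, fun X hX => le_trans ?_ (hX₀ X ((le_max_left _ _).trans hX))⟩
  have h1 : {v : PL S | X < (qq v.1 : ℝ) ∧ (qq v.1 : ℝ) ≤ (1 + η) * X ∧ Q v} ⊆
      {v : PL S | X < (qq v.1 : ℝ) ∧ (qq v.1 : ℝ) ≤ (1 + η) * X ∧ P v} := fun v hv =>
    ⟨hv.1, hv.2.1, hPQ v (((le_max_right _ _).trans hX).trans hv.1.le) hv.2.2⟩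
  exact_mod_cast Set.ncard_le_ncard h1 (IS_finite P X η)

theorem upper_closed {Q : PL S → Prop} {δ : ℝ} (h : ∀ ε : ℝ, 0 < ε → ∃ δ', δ' ≤ δ + ε ∧ UpperDensityLE Q δ') :
    UpperDensityLE Q δ := by
  intro η hη ε hε
  obtain ⟨δ', h1, h2⟩ := h (ε / 2) (half_pos hε)
  obtain ⟨X₀, hX₀⟩ := h2 η hη (ε / 2) (half_pos hε)
  refine ⟨max X₀ 2, fun X hX => (hX₀ X ((le_max_left _ _).trans hX)).trans ?_⟩
  have hX2 : 2 ≤ X := (le_max_right _ _).trans hX
  have h3 : 0 ≤ η * X / Real.log X := by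
    have : 0 < Real.log X := Real.log_pos (by linarith)
    positivity
  exact mul_le_mul_of_nonneg_right (by linarith) h3

end density

section main

variable {K E : Type} [Field K] [NumberField K] [Field E] [NumberField E]
  {S : Finset (HeightOneSpectrum (𝓞 K))} {T D : PL S → E} {α : (E →+* ℂ) → PL S → Fin 2 → ℂ}

theorem norm_D (h : WeightTwo T D α) (σ : E →+* ℂ) (v : PL S) : ‖σ (D v)‖ = 1 := by
  have h1 := congrArg Multiset.prod (h.unitary σ v).2
  have h0 := (h.unitary σ v).1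
  change (∏ i, ((starRingEnd ℂ) (α σ v i))⁻¹) = ∏ i, α σ v i at h1
  rw [Fin.prod_univ_two, Fin.prod_univ_two, ← h.det, ← mul_inv, ← map_mul, ← h.det] at h1
  have h2 : σ (D v) ≠ 0 := by
    rw [h.det]
    exact mul_ne_zero (h0 0) (h0 1)
  have h3 := congrArg norm h1
  rw [norm_inv, RCLike.norm_conj] at h3
  have h4 : 0 < ‖σ (D v)‖ := norm_pos_iff.2 h2
  have h5 : ‖σ (D v)‖ * ‖σ (D v)‖ = 1 := by
    nth_rewrite 1 [← h3]
    exact inv_mul_cancel₀ h4.ne'
  nlinarith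

theorem norm_T' (h : WeightTwo T D α) (σ : E →+* ℂ) (v : PL S) :
    ‖σ (T v)‖ = Real.sqrt (qq v.1 : ℝ) * Real.sqrt (xx α σ v) := by
  rw [h.trace, norm_mul, Complex.norm_real, Real.norm_of_nonneg (Real.sqrt_nonneg _)]
  unfold xx
  rw [Real.sqrt_sq (norm_nonneg _)]

/-- the norm of `θ(T_v)` -/
theorem norm_T_le (h : WeightTwo T D α) {X : ℝ} (v : PL S)
    (hX : (∑ σ, xx α σ v) ≤ X * Module.finrank ℚ E) :
    ((Algebra.norm ℚ (T v) : ℚ) : ℝ) ^ 2 ≤ (X * (qq v.1 : ℝ)) ^ Module.finrank ℚ E := by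
  haveI : Nonempty (E →+* ℂ) := inferInstance
  rw [← sq_abs, abs_norm_eq, ← Finset.prod_pow, ← NumberField.Embeddings.card E ℂ]
  refine prod_le_mean (fun σ => by positivity) ?_
  rw [NumberField.Embeddings.card E ℂ]
  simp_rw [norm_T h]
  rw [← Finset.sum_mul]
  nlinarith [(Nat.cast_nonneg (qq v.1) : (0 : ℝ) ≤ qq v.1)]

/-- the upper Hasse-Weil bound -/
theorem norm_A_le (h : WeightTwo T D α) {Y : ℝ} (hY : 0 ≤ Y) (v : PL S)
    (hX : (∑ σ, xx α σ v) ≤ Y ^ 2 * Module.finrank ℚ E) :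
    |((Algebra.norm ℚ (1 - T v + (qq v.1 : E) * D v) : ℚ) : ℝ)| ≤
      ((qq v.1 : ℝ) + 1 + Y * Real.sqrt (qq v.1)) ^ Module.finrank ℚ E := by
  haveI : Nonempty (E →+* ℂ) := inferInstance
  rw [abs_norm_eq, ← NumberField.Embeddings.card E ℂ]
  refine prod_le_mean (fun σ => by positivity) ?_
  have h1 : ∀ σ : E →+* ℂ, ‖σ (1 - T v + (qq v.1 : E) * D v)‖ ≤
      1 + (qq v.1 : ℝ) + Real.sqrt (qq v.1) * Real.sqrt (xx α σ v) := by
    intro σ
    rw [map_add, map_sub, map_one, map_mul, map_natCast]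
    refine (norm_add_le _ _).trans ?_
    have e1 := norm_sub_le (1 : ℂ) (σ (T v))
    rw [norm_one, norm_T' h] at e1
    rw [norm_mul, norm_D h, mul_one, Complex.norm_natCast]
    linarith
  refine (Finset.sum_le_sum fun σ _ => h1 σ).trans ?_
  have h2 := sum_sqrt_le (x := fun σ => xx α σ v) (fun σ => xx_nonneg σ v) (sq_nonneg Y)
    (by rw [NumberField.Embeddings.card E ℂ]; exact hX)
  rw [Real.sqrt_sq hY] at h2
  rw [Finset.sum_add_distrib, ← Finset.mul_sum, Finset.sum_const, Finset.card_univ, nsmul_eq_mul]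
  have h3 := mul_le_mul_of_nonneg_left h2 (Real.sqrt_nonneg (qq v.1 : ℝ))
  nlinarith

/-- the lower Hasse-Weil bound -/
theorem norm_A_ge (h : WeightTwo T D α) {X Y : ℝ} (hX0 : 0 ≤ X) (hXY : Real.sqrt X < Y) :
    ∃ N₀ : ℝ, ∀ v : PL S, N₀ ≤ (qq v.1 : ℝ) → (∑ σ, xx α σ v) ≤ X * Module.finrank ℚ E →
    ((qq v.1 : ℝ) + 1 - Y * Real.sqrt (qq v.1)) ^ Module.finrank ℚ E ≤
      |((Algebra.norm ℚ (1 - T v + (qq v.1 : E) * D v) : ℚ) : ℝ)| := by
  haveI : Nonempty (E →+* ℂ) := inferInstance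
  have hY0 : 0 < Y := (Real.sqrt_nonneg X).trans_lt hXY
  refine ⟨max (max 4 (16 * X * Module.finrank ℚ E)) (max (((6 + 4 * X) / (Y - Real.sqrt X)) ^ 2) (Y ^ 2)),
    fun v hv hX => ?_⟩
  rw [abs_norm_eq, ← NumberField.Embeddings.card E ℂ]
  have v1 : 4 ≤ (qq v.1 : ℝ) := ((le_max_left _ _).trans (le_max_left _ _)).trans hv
  have v2 : 16 * X * Module.finrank ℚ E ≤ (qq v.1 : ℝ) := ((le_max_right _ _).trans (le_max_left _ _)).trans hv
  have v3 : ((6 + 4 * X) / (Y - Real.sqrt X)) ^ 2 ≤ (qq v.1 : ℝ) :=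
    ((le_max_left _ _).trans (le_max_right _ _)).trans hv
  have v4 : Y ^ 2 ≤ (qq v.1 : ℝ) := ((le_max_right _ _).trans (le_max_right _ _)).trans hv
  refine prod_ge (x := fun σ => xx α σ v) (fun σ => xx_nonneg σ v) hX0 v1
    (by rw [NumberField.Embeddings.card E ℂ]; exact hX) (by rw [NumberField.Embeddings.card E ℂ]; exact v2) ?_ ?_ ?_
  · have e1 : 0 < Y - Real.sqrt X := by linarith
    have e2 : (6 + 4 * X) / (Y - Real.sqrt X) ≤ Real.sqrt (qq v.1) := Real.le_sqrt_of_sq_le v3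
    rw [div_le_iff₀ e1] at e2
    linarith
  · have e2 : Y ≤ Real.sqrt (qq v.1) := Real.le_sqrt_of_sq_le v4
    have e3 : Real.sqrt (qq v.1) * Real.sqrt (qq v.1) = (qq v.1 : ℝ) := Real.mul_self_sqrt (by positivity)
    nlinarith [Real.sqrt_nonneg (qq v.1 : ℝ)]
  · intro σ
    rw [map_add, map_sub, map_one, map_mul, map_natCast]
    have e1 := norm_sub_norm_le ((qq v.1 : ℂ) * σ (D v)) (-(1 - σ (T v)))
    have e2 := norm_sub_le (1 : ℂ) (σ (T v))
    rw [norm_one, norm_T' h] at e2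
    rw [norm_mul, norm_D h, mul_one, Complex.norm_natCast, norm_neg, sub_neg_eq_add, add_comm] at e1
    linarith

open scoped Classical in
/-- the Hasse-Weil bounds, with `Y` in place of `2` -/
theorem hw (h : WeightTwo T D α) {Y : ℝ} (hY : 1 < Y) {δ : ℝ → ℝ} (hδ : ContinuousAt δ (Y ^ 2))
    (hd : ∀ᶠ X in 𝓝[<] (Y ^ 2), UpperDensityLE (fun v : PL S => X * Module.finrank ℚ E ≤ ∑ σ, xx α σ v) (δ X)) :
    LowerDensityGE (fun v : PL S =>
      ((qq v.1 : ℝ) + 1 - Y * Real.sqrt (qq v.1)) ^ Module.finrank ℚ E ≤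
        |((Algebra.norm ℚ (1 - T v + (qq v.1 : E) * D v) : ℚ) : ℝ)| ∧
      |((Algebra.norm ℚ (1 - T v + (qq v.1 : E) * D v) : ℚ) : ℝ)| ≤
        ((qq v.1 : ℝ) + 1 + Y * Real.sqrt (qq v.1)) ^ Module.finrank ℚ E) (1 - δ (Y ^ 2)) := by
  set Q : PL S → Prop := fun v =>
      ((qq v.1 : ℝ) + 1 - Y * Real.sqrt (qq v.1)) ^ Module.finrank ℚ E ≤
        |((Algebra.norm ℚ (1 - T v + (qq v.1 : E) * D v) : ℚ) : ℝ)| ∧
      |((Algebra.norm ℚ (1 - T v + (qq v.1 : E) * D v) : ℚ) : ℝ)| ≤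
        ((qq v.1 : ℝ) + 1 + Y * Real.sqrt (qq v.1)) ^ Module.finrank ℚ E with hQ
  have hU : UpperDensityLE (fun v => ¬ Q v) (δ (Y ^ 2)) := by
    refine upper_closed fun ε hε => ?_
    have h1 : ∀ᶠ X in 𝓝[<] (Y ^ 2), δ X ≤ δ (Y ^ 2) + ε :=
      (hδ.tendsto.mono_left nhdsWithin_le_nhds).eventually_le_const (by linarith)
    have h2 : ∀ᶠ X in 𝓝[<] (Y ^ 2), 0 < X :=
      (eventually_gt_nhds (by positivity : (0 : ℝ) < Y ^ 2)).filter_mono nhdsWithin_le_nhds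
    have h3 : ∀ᶠ X in 𝓝[<] (Y ^ 2), X < Y ^ 2 := self_mem_nhdsWithin
    obtain ⟨X, hX1, hX2, hX3, hX4⟩ := (h1.and (h2.and (h3.and hd))).exists
    refine ⟨δ X, hX1, ?_⟩
    have hXY : Real.sqrt X < Y := (Real.sqrt_lt' (by linarith)).2 hX3
    obtain ⟨N₀, hN₀⟩ := norm_A_ge h hX2.le hXY
    refine upper_of_large (N₀ := N₀) hX4 fun v hv hnQ => ?_
    by_contra hcon
    rw [not_le] at hcon
    exact hnQ ⟨hN₀ v hv hcon.le, norm_A_le h (by linarith) v
      (hcon.le.trans (mul_le_mul_of_nonneg_right hX3.le (Nat.cast_nonneg _)))⟩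
  refine (lower_of_upper hU).mono fun v hv => ?_
  exact not_not.1 hv

theorem hw_one (h : WeightTwo T D α) {Y : ℝ} (hY : 1 < Y) :
    LowerDensityGE (fun v : PL S =>
      ((qq v.1 : ℝ) + 1 - Y * Real.sqrt (qq v.1)) ^ Module.finrank ℚ E ≤
        |((Algebra.norm ℚ (1 - T v + (qq v.1 : E) * D v) : ℚ) : ℝ)| ∧
      |((Algebra.norm ℚ (1 - T v + (qq v.1 : E) * D v) : ℚ) : ℝ)| ≤
        ((qq v.1 : ℝ) + 1 + Y * Real.sqrt (qq v.1)) ^ Module.finrank ℚ E)
      (1 - 1 / (1 + Module.finrank ℚ (core T D) * (Y ^ 2 - 1) ^ 2)) := by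
  refine hw h hY (δ := fun X => 1 / (1 + Module.finrank ℚ (core T D) * (X - 1) ^ 2)) ?_ ?_
  · have : ∀ X : ℝ, (1 + Module.finrank ℚ (core T D) * (X - 1) ^ 2 : ℝ) ≠ 0 := fun X => by positivity
    exact (continuous_const.div (by fun_prop) this).continuousAt
  · have h1 : ∀ᶠ X in 𝓝[<] (Y ^ 2), 1 < X :=
      (eventually_gt_nhds (by nlinarith : (1 : ℝ) < Y ^ 2)).filter_mono nhdsWithin_le_nhds
    filter_upwards [h1] with X hX
    exact mean_one h hX

theorem hw_two (h : WeightTwo T D α) {Y : ℝ} (hY : 1 < Y) (hY3 : 3 < Y ^ 2) :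
    LowerDensityGE (fun v : PL S =>
      ((qq v.1 : ℝ) + 1 - Y * Real.sqrt (qq v.1)) ^ Module.finrank ℚ E ≤
        |((Algebra.norm ℚ (1 - T v + (qq v.1 : E) * D v) : ℚ) : ℝ)| ∧
      |((Algebra.norm ℚ (1 - T v + (qq v.1 : E) * D v) : ℚ) : ℝ)| ≤
        ((qq v.1 : ℝ) + 1 + Y * Real.sqrt (qq v.1)) ^ Module.finrank ℚ E)
      (1 - 1 / (1 + Module.finrank ℚ (core T D) * ((Y ^ 2 - 1) ^ 2 + ((Y ^ 2) ^ 2 - 3 * Y ^ 2 + 1) ^ 2))) := by
  refine hw h hY (δ := fun X => 1 / (1 + Module.finrank ℚ (core T D) * ((X - 1) ^ 2 + (X ^ 2 - 3 * X + 1) ^ 2))) ?_ ?_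
  · have : ∀ X : ℝ, (1 + Module.finrank ℚ (core T D) * ((X - 1) ^ 2 + (X ^ 2 - 3 * X + 1) ^ 2) : ℝ) ≠ 0 :=
      fun X => by positivity
    exact (continuous_const.div (by fun_prop) this).continuousAt
  · have h1 : ∀ᶠ X in 𝓝[<] (Y ^ 2), 3 < X :=
      (eventually_gt_nhds hY3).filter_mono nhdsWithin_le_nhds
    filter_upwards [h1] with X hX
    exact mean_two h hX.le

/-- the norm of `θ(T_v)` -/
theorem norm_T_one (h : WeightTwo T D α) {X : ℝ} (hX : 1 < X) :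
    LowerDensityGE (fun v : PL S => ((Algebra.norm ℚ (T v) : ℚ) : ℝ) ^ 2 ≤ (X * (qq v.1 : ℝ)) ^ Module.finrank ℚ E)
      (1 - 1 / (1 + Module.finrank ℚ (core T D) * (X - 1) ^ 2)) := by
  classical
  refine (lower_of_upper (mean_one h hX)).mono fun v hv => ?_
  rw [not_le] at hv
  exact norm_T_le h v hv.le

theorem norm_T_two (h : WeightTwo T D α) {X : ℝ} (hX : 3 ≤ X) :
    LowerDensityGE (fun v : PL S => ((Algebra.norm ℚ (T v) : ℚ) : ℝ) ^ 2 ≤ (X * (qq v.1 : ℝ)) ^ Module.finrank ℚ E)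
      (1 - 1 / (1 + Module.finrank ℚ (core T D) * ((X - 1) ^ 2 + (X ^ 2 - 3 * X + 1) ^ 2))) := by
  classical
  refine (lower_of_upper (mean_two h hX)).mono fun v hv => ?_
  rw [not_le] at hv
  exact norm_T_le h v hv.le

end main

end Pool.Agent.T2H30.CF
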