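import Mathlib
import Pool.Agent.T2H30.CF.Norm2

/-! The means over the conjugates of a Hecke character of weight two. -/

set_option autoImplicit false

open Set Filter Topology NumberField IsDedekindDomain
open Pool.Agent.TH861.GL3
open Pool.Agent.T2H30.DN

namespace Pool.Agent.T2H30.CF

section field

variable {E : Type} [Field E] [NumberField E]

theorem trace_eq (x : E) : ((Algebra.trace ℚ E x : ℚ) : ℂ) = ∑ σ : E →+* ℂ, σ x := by
  have h := trace_eq_sum_embeddings (K := ℚ) (L := E) (E := ℂ) (x := x)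
  rw [eq_ratCast] at h
  rw [h]
  exact (Fintype.sum_equiv (RingHom.equivRatAlgHom E ℂ) (fun σ => σ x) (fun φ => φ x) fun _ => by
    simp [RingHom.equivRatAlgHom_apply]).symm

end field

variable {K E : Type} [Field K] [NumberField K] [Field E] [NumberField E]
  {S : Finset (HeightOneSpectrum (𝓞 K))} {T D : PL S → E} {α : (E →+* ℂ) → PL S → Fin 2 → ℂ}

/-- `σ (T² / D) = N v x_σ` -/
theorem map_beta (h : WeightTwo T D α) (σ : E →+* ℂ) (v : PL S) :
    σ (T v ^ 2 / D v) = (((qq v.1 : ℝ) * xx α σ v : ℝ) : ℂ) := by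
  have h0 := (h.unitary σ v).1
  have h1 := congrArg Multiset.sum (h.unitary σ v).2
  change (∑ i, ((starRingEnd ℂ) (α σ v i))⁻¹) = ∑ i, α σ v i at h1
  rw [Fin.sum_univ_two, Fin.sum_univ_two] at h1
  have h2 := congrArg (starRingEnd ℂ) h1
  rw [map_add, map_inv₀, map_inv₀, Complex.conj_conj, Complex.conj_conj] at h2
  have ha := h0 0
  have hb := h0 1
  have h3 : (α σ v 0 + α σ v 1) / (α σ v 0 * α σ v 1) = (starRingEnd ℂ) (α σ v 0 + α σ v 1) := by
    rw [← h2]
    field_simp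
    ring
  have h4 : ((Real.sqrt (qq v.1 : ℝ) : ℝ) : ℂ) ^ 2 = ((qq v.1 : ℝ) : ℂ) := by
    rw [← Complex.ofReal_pow, Real.sq_sqrt (Nat.cast_nonneg _)]
  rw [map_div₀, map_pow, h.trace, h.det, mul_pow, h4]
  have h5 : ((xx α σ v : ℝ) : ℂ) = (α σ v 0 + α σ v 1) * (starRingEnd ℂ) (α σ v 0 + α σ v 1) := by
    unfold xx
    rw [Complex.mul_conj, Complex.normSq_eq_norm_sq]
  rw [Complex.ofReal_mul, h5, ← h3]
  field_simp

theorem trace_beta (h : WeightTwo T D α) (v : PL S) (k : ℕ) :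
    ((Algebra.trace ℚ E ((T v ^ 2 / D v) ^ k) : ℚ) : ℝ) = (qq v.1 : ℝ) ^ k * ∑ σ, xx α σ v ^ k := by
  have h1 := trace_eq ((T v ^ 2 / D v) ^ k)
  simp_rw [map_pow, map_beta h] at h1
  have h2 : ((((Algebra.trace ℚ E ((T v ^ 2 / D v) ^ k) : ℚ) : ℝ)) : ℂ) =
      (((qq v.1 : ℝ) ^ k * ∑ σ, xx α σ v ^ k : ℝ) : ℂ) := by
    rw [Complex.ofReal_ratCast, h1, Finset.mul_sum]
    push_cast
    refine Finset.sum_congr rfl fun σ _ => ?_
    rw [mul_pow]
  exact_mod_cast h2

/-- Chebyshev's inequality for the means -/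
theorem cheb (h : WeightTwo T D α) (a b : ℝ) {ε : ℝ} (hε : 0 < ε) :
    UpperDensityLE (fun v : PL S => ε * Module.finrank ℚ E ≤ |∑ σ, f2 a b (α σ v) 1|)
      ((a ^ 2 + b ^ 2) / (Module.finrank ℚ (core T D) * ε ^ 2)) := by
  classical
  set n : ℝ := (Module.finrank ℚ E : ℝ) with hn
  set g : ℝ := (Module.finrank ℚ (core T D) : ℝ) with hg
  have hn0 : 0 < n := by
    have : 0 < Module.finrank ℚ E := Module.finrank_pos
    rw [hn]
    exact_mod_cast this
  have hg0 : 0 < g := by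
    have : 0 < Module.finrank ℚ (core T D) := Module.finrank_pos
    rw [hg]
    exact_mod_cast this
  have h1 := (cont_sq2 h a b 0).tendsto fun x => by positivity
  rw [← hn, ← hg] at h1
  have h2 := upper_of_tendsto (fun x => by positivity) h1 (κ := (ε * n) ^ 2) (by positivity)
    (P := fun v : PL S => ε * n ≤ |∑ σ, f2 a b (α σ v) 1|) ?_
  · convert h2 using 1
    field_simp
    ring
  · intro v hv
    simp only [zero_add, add_zero]
    rw [← sq_abs (∑ σ, f2 a b (α σ v) 1)]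
    exact pow_le_pow_left₀ (by positivity) hv 2

/-- Cantelli's inequality for the means, general form -/
theorem cantelli (h : WeightTwo T D α) {a b ε : ℝ} (hab : 0 < a ^ 2 + b ^ 2) (hε : 0 < ε) :
    UpperDensityLE (fun v : PL S => ε * Module.finrank ℚ E ≤ ∑ σ, f2 a b (α σ v) 1)
      ((a ^ 2 + b ^ 2) / ((a ^ 2 + b ^ 2) + Module.finrank ℚ (core T D) * ε ^ 2)) := by
  classical
  set n : ℝ := (Module.finrank ℚ E : ℝ) with hn
  set g : ℝ := (Module.finrank ℚ (core T D) : ℝ) with hg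
  have hn0 : 0 < n := by
    have : 0 < Module.finrank ℚ E := Module.finrank_pos
    rw [hn]
    exact_mod_cast this
  have hg0 : 0 < g := by
    have : 0 < Module.finrank ℚ (core T D) := Module.finrank_pos
    rw [hg]
    exact_mod_cast this
  set V : ℝ := a ^ 2 + b ^ 2 with hV
  set l : ℝ := V * n / (g * ε) with hl
  have hl0 : 0 < l := by positivity
  have h1 := (cont_sq2 h a b l).tendsto fun x => by positivity
  rw [← hV, ← hn, ← hg] at h1
  have h2 := upper_of_tendsto (fun x => by positivity) h1 (κ := (ε * n + l) ^ 2) (by positivity)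
    (P := fun v : PL S => ε * n ≤ ∑ σ, f2 a b (α σ v) 1) ?_
  · convert h2 using 1
    rw [hl]
    have : V + g * ε ^ 2 ≠ 0 := by positivity
    field_simp
    ring
  · intro v hv
    simp only [zero_add]
    exact pow_le_pow_left₀ (by positivity) (by linarith) 2

theorem sum_f2 (a b : ℝ) (v : PL S) : ∑ σ, f2 a b (α σ v) 1 =
    a * (∑ σ, xx α σ v - Module.finrank ℚ E) +
      b * (∑ σ, xx α σ v ^ 2 - 3 * ∑ σ, xx α σ v + Module.finrank ℚ E) := by
  unfold f2
  simp only [tr_false, tr_true]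
  rw [Finset.sum_add_distrib, ← Finset.mul_sum, ← Finset.mul_sum, Finset.sum_add_distrib, Finset.sum_sub_distrib,
    Finset.sum_sub_distrib, ← Finset.mul_sum, Finset.sum_const, card_emb, nsmul_eq_mul, mul_one]

/-- the law of large numbers for the means of a quadratic polynomial -/
theorem mean_poly (h : WeightTwo T D α) (c₀ c₁ c₂ : ℝ) {ε : ℝ} (hε : 0 < ε) :
    UpperDensityLE (fun v : PL S => ε * Module.finrank ℚ E ≤
      |∑ σ, (c₀ + c₁ * xx α σ v + c₂ * xx α σ v ^ 2) - (c₀ + c₁ + 2 * c₂) * Module.finrank ℚ E|)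
      (((c₁ + 3 * c₂) ^ 2 + c₂ ^ 2) / (Module.finrank ℚ (core T D) * ε ^ 2)) := by
  refine (cheb h (c₁ + 3 * c₂) c₂ hε).mono fun v hv => ?_
  rw [sum_f2]
  have e : ∑ σ, (c₀ + c₁ * xx α σ v + c₂ * xx α σ v ^ 2) - (c₀ + c₁ + 2 * c₂) * (Module.finrank ℚ E : ℝ) =
      (c₁ + 3 * c₂) * (∑ σ, xx α σ v - Module.finrank ℚ E) +
      c₂ * (∑ σ, xx α σ v ^ 2 - 3 * ∑ σ, xx α σ v + Module.finrank ℚ E) := by
    rw [Finset.sum_add_distrib, Finset.sum_add_distrib, ← Finset.mul_sum, ← Finset.mul_sum, Finset.sum_const,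
      card_emb, nsmul_eq_mul]
    ring
  rw [← e]
  exact hv

/-- the excess over `(1 + z) N v` -/
theorem excess (h : WeightTwo T D α) {z ε : ℝ} (hz : 0 < z) (hε : 0 < ε) :
    UpperDensityLE (fun v : PL S => ((Real.sqrt (1 + z ^ 2) - z) / 2 + ε) * Module.finrank ℚ E ≤
      ∑ σ, max 0 (xx α σ v - (1 + z)))
      ((1 + (2 * (Real.sqrt (1 + z ^ 2) - z) + 1) ^ 2) / ((1 + (2 * (Real.sqrt (1 + z ^ 2) - z) + 1) ^ 2) +
        16 * (1 + z ^ 2) * Module.finrank ℚ (core T D) * ε ^ 2)) := by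
  set r : ℝ := Real.sqrt (1 + z ^ 2) with hr
  have hr2 : r ^ 2 = 1 + z ^ 2 := Real.sq_sqrt (by positivity)
  have hr0 : 0 < r := Real.sqrt_pos.2 (by positivity)
  have hg0 : (0 : ℝ) < Module.finrank ℚ (core T D) := by
    have : 0 < Module.finrank ℚ (core T D) := Module.finrank_pos
    exact_mod_cast this
  have h1 := cantelli h (a := (2 * (r - z) + 1) / (4 * r)) (b := 1 / (4 * r)) (ε := ε) (by positivity) hε
  convert h1.mono ?_ using 1
  · have e1 : (0 : ℝ) < 1 + (2 * (r - z) + 1) ^ 2 + 16 * (1 + z ^ 2) * Module.finrank ℚ (core T D) * ε ^ 2 := by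
      positivity
    have e2 : (0 : ℝ) < ((2 * (r - z) + 1) / (4 * r)) ^ 2 + (1 / (4 * r)) ^ 2 +
        Module.finrank ℚ (core T D) * ε ^ 2 := by positivity
    rw [div_eq_div_iff e1.ne' e2.ne', ← hr2]
    field_simp
    ring
  · intro v hv
    rw [sum_f2]
    have h2 : ∀ σ : E →+* ℂ, max 0 (xx α σ v - (1 + z)) ≤ (xx α σ v - (1 + z) + r) ^ 2 / (4 * r) := by
      intro σ
      refine max_le (by positivity) ?_
      rw [le_div_iff₀ (by positivity)]
      nlinarith [sq_nonneg (xx α σ v - (1 + z) - r)]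
    have h3 := Finset.sum_le_sum fun σ (_ : σ ∈ (Finset.univ : Finset (E →+* ℂ))) => h2 σ
    have e : ∑ σ : E →+* ℂ, (xx α σ v - (1 + z) + r) ^ 2 / (4 * r) =
        (∑ σ, xx α σ v ^ 2 + 2 * (r - (1 + z)) * ∑ σ, xx α σ v +
          (r - (1 + z)) ^ 2 * (Module.finrank ℚ E : ℝ)) / (4 * r) := by
      rw [← Finset.sum_div]
      congr 1
      have : ∀ σ : E →+* ℂ, (xx α σ v - (1 + z) + r) ^ 2 =
          xx α σ v ^ 2 + 2 * (r - (1 + z)) * xx α σ v + (r - (1 + z)) ^ 2 := fun σ => by ring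
      simp_rw [this]
      rw [Finset.sum_add_distrib, Finset.sum_add_distrib, ← Finset.mul_sum, Finset.sum_const, card_emb,
        nsmul_eq_mul]
      ring
    rw [e] at h3
    set A := ∑ σ, xx α σ v
    set B := ∑ σ, xx α σ v ^ 2
    set n : ℝ := (Module.finrank ℚ E : ℝ)
    have h4 := hv.trans h3
    rw [le_div_iff₀ (by positivity)] at h4
    have e5 : (2 * (r - z) + 1) / (4 * r) * (A - n) + 1 / (4 * r) * (B - 3 * A + n) =
        ((2 * (r - z) + 1) * (A - n) + (B - 3 * A + n)) / (4 * r) := by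
      field_simp
    rw [e5, le_div_iff₀ (by positivity)]
    have e6 : (2 * (r - z) + 1) * (A - n) + (B - 3 * A + n) - ε * n * (4 * r) =
        (B + 2 * (r - (1 + z)) * A + (r - (1 + z)) ^ 2 * n - ((r - z) / 2 + ε) * n * (4 * r)) +
          n * (r ^ 2 - (1 + z ^ 2)) := by ring
    rw [hr2, sub_self, mul_zero, add_zero] at e6
    linarith

end Pool.Agent.T2H30.CF
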